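import Mathlib

set_option autoImplicit false

namespace Pool.Agent.Helper34.BAC

open NumberField

lemma z8a : ∀ a b w : ZMod 8, a ^ 3 * b ^ 2 ≠ (2 * w) ^ 3 + 6 := by decide
lemma z8b : ∀ a b w : ZMod 8, (2 * a) ^ 3 * b ^ 2 ≠ w ^ 3 + 6 := by decide
lemma z9a : ∀ a b w : ZMod 9, a ^ 3 * b ^ 2 ≠ (3 * w) ^ 3 + 6 := by decide
lemma z9b : ∀ a b w : ZMod 9, (3 * a) ^ 3 * b ^ 2 ≠ w ^ 3 + 6 := by decide
lemma z9c : ∀ a b w : ZMod 9, a ^ 3 * (3 * b) ^ 2 ≠ w ^ 3 + 6 := by decide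

lemma facts {x y z : ℤ} (h : x ^ 3 * y ^ 2 = z ^ 3 + 6) :
    ¬ (2 : ℤ) ∣ z ∧ ¬ (3 : ℤ) ∣ z ∧ ¬ (2 : ℤ) ∣ x ∧ ¬ (3 : ℤ) ∣ x ∧ ¬ (3 : ℤ) ∣ y := by
  refine ⟨?_, ?_, ?_, ?_, ?_⟩
  · rintro ⟨w, rfl⟩
    have := congrArg (Int.cast : ℤ → ZMod 8) h
    push_cast at this
    exact z8a _ _ _ this
  · rintro ⟨w, rfl⟩
    have := congrArg (Int.cast : ℤ → ZMod 9) h
    push_cast at this
    exact z9a _ _ _ this
  · rintro ⟨w, rfl⟩
    have := congrArg (Int.cast : ℤ → ZMod 8) h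
    push_cast at this
    exact z8b _ _ _ this
  · rintro ⟨w, rfl⟩
    have := congrArg (Int.cast : ℤ → ZMod 9) h
    push_cast at this
    exact z9b _ _ _ this
  · rintro ⟨w, rfl⟩
    have := congrArg (Int.cast : ℤ → ZMod 9) h
    push_cast at this
    exact z9c _ _ _ this

lemma par3 {a b D x : ℤ} (hx : ¬ (3 : ℤ) ∣ x) (hc : IsCoprime a b)
    (h : D * b ^ 2 = 24 * x * a ^ 2) : (3 : ℤ) ∣ D := by
  by_contra hD
  have p3 : Prime (3 : ℤ) := Int.prime_three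
  have h1 : (3 : ℤ) ∣ D * b ^ 2 := ⟨8 * x * a ^ 2, by rw [h]; ring⟩
  have h2 : (3 : ℤ) ∣ b := p3.dvd_of_dvd_pow ((p3.dvd_or_dvd h1).resolve_left hD)
  obtain ⟨b', rfl⟩ := h2
  have h3 : (3 : ℤ) ∣ 8 * (x * a ^ 2) := ⟨D * b' ^ 2, by linarith⟩
  have h4 : (3 : ℤ) ∣ x * a ^ 2 := (p3.dvd_or_dvd h3).resolve_left (by decide)
  have h5 : (3 : ℤ) ∣ a := p3.dvd_of_dvd_pow ((p3.dvd_or_dvd h4).resolve_left hx)
  exact p3.not_isUnit (hc.isUnit_of_dvd' h5 ⟨b', rfl⟩)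

lemma par2 {a b x : ℤ} (hx : ¬ (2 : ℤ) ∣ x) (hc : IsCoprime a b)
    (h : a ^ 2 = 6 * x * b ^ 2) : False := by
  have p2 : Prime (2 : ℤ) := Int.prime_two
  have h1 : (2 : ℤ) ∣ a ^ 2 := ⟨3 * x * b ^ 2, by rw [h]; ring⟩
  obtain ⟨a', rfl⟩ := p2.dvd_of_dvd_pow h1
  have h3 : (2 : ℤ) ∣ 3 * (x * b ^ 2) := ⟨a' ^ 2, by linarith⟩
  have h4 : (2 : ℤ) ∣ x * b ^ 2 := (p2.dvd_or_dvd h3).resolve_left (by decide)
  have h5 : (2 : ℤ) ∣ b := p2.dvd_of_dvd_pow ((p2.dvd_or_dvd h4).resolve_left hx)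
  exact p2.not_isUnit (hc.isUnit_of_dvd' ⟨a', rfl⟩ h5)

lemma par2' {a b x : ℤ} (hx : ¬ (2 : ℤ) ∣ x) (hc : IsCoprime a b)
    (h : b ^ 2 = -(8 * x * a ^ 2)) : False := by
  have p2 : Prime (2 : ℤ) := Int.prime_two
  have h1 : (2 : ℤ) ∣ b ^ 2 := ⟨-(4 * x * a ^ 2), by rw [h]; ring⟩
  obtain ⟨b', rfl⟩ := p2.dvd_of_dvd_pow h1
  have h2 : (2 : ℤ) ∣ b' ^ 2 := ⟨-(x * a ^ 2), by linarith⟩
  obtain ⟨b'', rfl⟩ := p2.dvd_of_dvd_pow h2
  have h4 : (2 : ℤ) ∣ x * a ^ 2 := ⟨-b'' ^ 2, by linarith⟩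
  have h5 : (2 : ℤ) ∣ a := p2.dvd_of_dvd_pow ((p2.dvd_or_dvd h4).resolve_left hx)
  exact p2.not_isUnit (hc.isUnit_of_dvd' h5 ⟨2 * b'', by ring⟩)

lemma rat_cop (q : ℚ) : IsCoprime q.num (q.den : ℤ) := by
  rw [Int.isCoprime_iff_gcd_eq_one, Int.gcd, Int.natAbs_natCast]
  exact q.reduced

section fld
variable {K : Type} [Field K] [NumberField K] {s : K} {x : ℤ}

lemma s_irr (hx : ¬ (2 : ℤ) ∣ x) (hs : s ^ 2 = 6 * x) (q : ℚ) : s ≠ (q : K) := by
  intro h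
  rw [h] at hs
  have h1 : q ^ 2 = 6 * x := by exact_mod_cast hs
  have hd : (q.den : ℚ) ≠ 0 := by exact_mod_cast q.den_nz
  have h2 : (q.num : ℚ) ^ 2 = 6 * x * (q.den : ℚ) ^ 2 := by
    rw [← h1]
    nth_rewrite 2 [← Rat.num_div_den q]
    field_simp
  exact par2 hx (rat_cop q) (by exact_mod_cast h2)

lemma ind (hx : ¬ (2 : ℤ) ∣ x) (hs : s ^ 2 = 6 * x) {p q : ℚ} (h : (p : K) + q * s = 0) :
    p = 0 ∧ q = 0 := by
  have hq : q = 0 := by
    by_contra hq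
    have hqK : (q : K) ≠ 0 := by exact_mod_cast hq
    apply s_irr hx hs (-p / q)
    push_cast
    rw [eq_div_iff hqK]
    linear_combination h
  subst hq
  refine ⟨?_, rfl⟩
  simpa using h

lemma coord (hK : Module.finrank ℚ K = 2) (hx : ¬ (2 : ℤ) ∣ x) (hs : s ^ 2 = 6 * x) (g : K) :
    ∃ p q : ℚ, g = p + q * s := by
  have hli : LinearIndependent ℚ ![(1 : K), s] := by
    rw [LinearIndependent.pair_iff]
    intro p q h
    exact ind hx hs (p := p) (q := q) (by simpa [Algebra.smul_def] using h)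
  have hsp : Submodule.span ℚ (Set.range ![(1 : K), s]) = ⊤ :=
    hli.span_eq_top_of_card_eq_finrank' (by simp [hK])
  have hg : g ∈ Submodule.span ℚ (Set.range ![(1 : K), s]) := by rw [hsp]; trivial
  simp only [Matrix.range_cons, Matrix.range_empty, Set.union_empty, Set.singleton_union] at hg
  rw [Submodule.mem_span_pair] at hg
  obtain ⟨p, q, hpq⟩ := hg
  exact ⟨p, q, by rw [← hpq]; simp [Algebra.smul_def]⟩

lemma quad (hK : Module.finrank ℚ K = 2) (g : 𝓞 K) :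
    ∃ T N : ℤ, (g : K) ^ 2 = T * g - N := by
  have hint : IsIntegral ℤ (g : K) := g.2
  have hmin := minpoly.isIntegrallyClosed_eq_field_fractions' ℚ hint
  have hdeg : (minpoly ℤ (g : K)).natDegree ≤ 2 := by
    have h1 : (minpoly ℚ (g : K)).natDegree = (minpoly ℤ (g : K)).natDegree := by
      rw [hmin, (minpoly.monic hint).natDegree_map]
    rw [← h1, ← hK]
    exact minpoly.natDegree_le _
  have hmon := minpoly.monic hint
  have hae := minpoly.aeval ℤ (g : K)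
  rw [Polynomial.aeval_eq_sum_range' (n := 3) (by omega)] at hae
  simp only [Finset.sum_range_succ, Finset.sum_range_zero, zero_add, pow_zero, pow_one] at hae
  set P := minpoly ℤ (g : K)
  have hd0 : P.natDegree = 0 ∨ P.natDegree = 1 ∨ P.natDegree = 2 := by omega
  rcases hd0 with hd | hd | hd
  · exfalso
    have c0 : P.coeff 0 = 1 := by rw [← hd]; exact hmon.coeff_natDegree
    have c1 : P.coeff 1 = 0 := Polynomial.coeff_eq_zero_of_natDegree_lt (by omega)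
    have c2 : P.coeff 2 = 0 := Polynomial.coeff_eq_zero_of_natDegree_lt (by omega)
    rw [c0, c1, c2] at hae
    simp at hae
  · have c1 : P.coeff 1 = 1 := by rw [← hd]; exact hmon.coeff_natDegree
    have c2 : P.coeff 2 = 0 := Polynomial.coeff_eq_zero_of_natDegree_lt (by omega)
    rw [c1, c2] at hae
    refine ⟨-P.coeff 0, 0, ?_⟩
    have h3 : (g : K) = -(P.coeff 0 : K) := by
      have : (P.coeff 0 : K) + g = 0 := by simpa using hae
      linear_combination this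
    push_cast
    linear_combination (g : K) * h3
  · have c2 : P.coeff 2 = 1 := by rw [← hd]; exact hmon.coeff_natDegree
    rw [c2] at hae
    refine ⟨-P.coeff 1, P.coeff 0, ?_⟩
    have : (P.coeff 0 : K) + P.coeff 1 * g + g ^ 2 = 0 := by simpa using hae
    push_cast
    linear_combination this

/-- coordinates of an integral element: `2p` and `p^2 - 6xq^2` are integers, if `q ≠ 0` -/
lemma coords (hK : Module.finrank ℚ K = 2) (hx : ¬ (2 : ℤ) ∣ x) (hs : s ^ 2 = 6 * x) (g : 𝓞 K)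
    {p q : ℚ} (hg : (g : K) = p + q * s) (hq : q ≠ 0) :
    ∃ T N : ℤ, (g : K) ^ 2 = T * g - N ∧ (T : ℚ) = 2 * p ∧ (N : ℚ) = p ^ 2 - 6 * x * q ^ 2 := by
  obtain ⟨T, N, h⟩ := quad hK g
  refine ⟨T, N, h, ?_⟩
  rw [hg] at h
  have h1 : (((p ^ 2 + 6 * x * q ^ 2 - T * p + N : ℚ)) : K) + ((2 * p * q - T * q : ℚ) : K) * s = 0 := by
    push_cast
    linear_combination h - (q : K) ^ 2 * hs
  obtain ⟨h2, h3⟩ := ind hx hs h1
  have h4 : (T : ℚ) = 2 * p := by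
    have : q * (2 * p - T) = 0 := by linear_combination h3
    rcases mul_eq_zero.1 this with h | h
    · exact absurd h hq
    · linear_combination -h
  exact ⟨h4, by rw [h4] at h2; linear_combination h2⟩

lemma rat_int (g : 𝓞 K) {p : ℚ} (hg : (g : K) = p) : ∃ m : ℤ, g = m := by
  have h1 : IsIntegral ℤ (g : K) := g.2
  rw [hg] at h1
  have h2 : IsIntegral ℤ p := by
    have h3 : IsIntegral ℤ (algebraMap ℚ K p) := by simpa using h1
    exact (isIntegral_algebraMap_iff (algebraMap ℚ K).injective).1 h3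
  obtain ⟨m, hm⟩ := IsIntegrallyClosed.isIntegral_iff.1 h2
  refine ⟨m, RingOfIntegers.ext ?_⟩
  rw [hg, ← hm]
  simp

lemma cube (hK : Module.finrank ℚ K = 2) (hx : ¬ (2 : ℤ) ∣ x) (hx3 : ¬ (3 : ℤ) ∣ x)
    (hs : s ^ 2 = 6 * x) (g : 𝓞 K) : ∃ (j : ℤ) (k : 𝓞 K), g ^ 3 = j + 3 * k := by
  obtain ⟨p, q, hg⟩ := coord hK hx hs (g : K)
  by_cases hq : q = 0
  · subst hq
    obtain ⟨m, rfl⟩ := rat_int g (p := p) (by rw [hg]; simp)
    exact ⟨m ^ 3, 0, by push_cast; ring⟩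
  · obtain ⟨T, N, h, hT, hN⟩ := coords hK hx hs g hg hq
    have h1 : ((T ^ 2 - 4 * N : ℤ) : ℚ) = 24 * x * q ^ 2 := by
      push_cast; rw [hT, hN]; ring
    have hd : (q.den : ℚ) ≠ 0 := by exact_mod_cast q.den_nz
    have h2 : ((T ^ 2 - 4 * N : ℤ) : ℚ) * (q.den : ℚ) ^ 2 = 24 * x * (q.num : ℚ) ^ 2 := by
      rw [h1]
      nth_rewrite 1 [← Rat.num_div_den q]
      field_simp
    have h3 : (3 : ℤ) ∣ T ^ 2 - 4 * N :=
      par3 (a := q.num) (b := q.den) (x := x) hx3 (rat_cop q) (by exact_mod_cast h2)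
    obtain ⟨c, hc⟩ := h3
    have h4 : g ^ 2 = (T : 𝓞 K) * g - N := by
      apply RingOfIntegers.coe_injective
      push_cast
      exact h
    refine ⟨-(T * N), ((c + N : ℤ) : 𝓞 K) * g, ?_⟩
    have h5 : ((T : 𝓞 K) ^ 2 - 4 * N) = 3 * c := by exact_mod_cast congrArg (Int.cast : ℤ → 𝓞 K) hc
    push_cast
    linear_combination (g + T) * h4 + g * h5

lemma notint (hK : Module.finrank ℚ K = 2) (hx : ¬ (2 : ℤ) ∣ x) (hx3 : ¬ (3 : ℤ) ∣ x)
    (hs : s ^ 2 = 6 * x) {y : ℤ} (hy : ¬ (3 : ℤ) ∣ y) (j : ℤ) (k : 𝓞 K)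
    (h : (2 * x * y : K) * s = j + 3 * (k : K)) : False := by
  have p3 : Prime (3 : ℤ) := Int.prime_three
  have hx0 : x ≠ 0 := by rintro rfl; exact hx3 (dvd_zero _)
  have hy0 : y ≠ 0 := by rintro rfl; exact hy (dvd_zero _)
  have hk : (k : K) = ((-j / 3 : ℚ) : K) + ((2 * x * y / 3 : ℚ) : K) * s := by
    push_cast
    linear_combination -(1 / 3 : K) * h
  have hq : (2 * x * y / 3 : ℚ) ≠ 0 := by
    have h1 : (x : ℚ) ≠ 0 := by exact_mod_cast hx0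
    have h2 : (y : ℚ) ≠ 0 := by exact_mod_cast hy0
    positivity
  obtain ⟨T, N, -, hT, hN⟩ := coords hK hx hs k hk hq
  have h1 : 3 * T = -2 * j := by
    have : (3 : ℚ) * T = -2 * j := by rw [hT]; ring
    exact_mod_cast this
  have h2 : (3 : ℤ) ∣ 2 * j := ⟨-T, by linarith⟩
  obtain ⟨j', rfl⟩ := (p3.dvd_or_dvd h2).resolve_left (by decide)
  have h3 : 3 * N = 3 * j' ^ 2 - 8 * (x ^ 3 * y ^ 2) := by
    have : (3 : ℚ) * N = 3 * j' ^ 2 - 8 * (x ^ 3 * y ^ 2) := by rw [hN]; push_cast; ring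
    exact_mod_cast this
  have h4 : (3 : ℤ) ∣ 8 * (x ^ 3 * y ^ 2) := ⟨j' ^ 2 - N, by linarith⟩
  have h5 := (p3.dvd_or_dvd h4).resolve_left (by decide)
  rcases p3.dvd_or_dvd h5 with h6 | h6
  · exact hx3 (p3.dvd_of_dvd_pow h6)
  · exact hy (p3.dvd_of_dvd_pow h6)

lemma unit_int (hK : Module.finrank ℚ K = 2) (hx : ¬ (2 : ℤ) ∣ x) (hx3 : ¬ (3 : ℤ) ∣ x)
    (hs : s ^ 2 = 6 * x) (hneg : x < 0) (u : (𝓞 K)ˣ) : ∃ m : ℤ, (u : 𝓞 K) = m := by
  obtain ⟨p, q, hg⟩ := coord hK hx hs ((u : 𝓞 K) : K)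
  by_cases hq : q = 0
  · subst hq
    exact rat_int _ (p := p) (by rw [hg]; simp)
  · exfalso
    obtain ⟨T, N, h, hT, hN⟩ := coords hK hx hs (u : 𝓞 K) hg hq
    obtain ⟨p', q', hg'⟩ := coord hK hx hs (((u⁻¹ : (𝓞 K)ˣ) : 𝓞 K) : K)
    have huv : ((u : 𝓞 K) : K) * (((u⁻¹ : (𝓞 K)ˣ) : 𝓞 K) : K) = 1 := by
      rw [← map_mul]; simp
    have hxQ : (x : ℚ) < 0 := by exact_mod_cast hneg
    have hq2 : 0 < q ^ 2 := by positivity
    have hNpos : 0 < p ^ 2 - 6 * x * q ^ 2 := by nlinarith [sq_nonneg p]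
    rw [hg, hg'] at huv
    have e1 : (((p * p' + 6 * x * q * q' - 1 : ℚ)) : K) + ((p * q' + p' * q : ℚ) : K) * s = 0 := by
      push_cast
      linear_combination huv - (q : K) * q' * hs
    obtain ⟨e2, e3⟩ := ind hx hs e1
    have hq' : q' ≠ 0 := by
      rintro rfl
      have : p' * q = 0 := by linear_combination e3
      rcases mul_eq_zero.1 this with h0 | h0
      · rw [h0] at e2; norm_num at e2
      · exact hq h0
    obtain ⟨T', N', h', hT', hN'⟩ := coords hK hx hs ((u⁻¹ : (𝓞 K)ˣ) : 𝓞 K) hg' hq'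
    have hNN : N * N' = 1 := by
      have : (N : ℚ) * N' = 1 := by
        rw [hN, hN']
        linear_combination (p * p' + 6 * x * q * q' + 1) * e2 - 6 * x * (p * q' + p' * q) * e3
      exact_mod_cast this
    have hN0 : 0 < N := by
      have : (0 : ℚ) < N := by rw [hN]; exact hNpos
      exact_mod_cast this
    have hN1 : N = 1 := by
      rcases Int.eq_one_or_neg_one_of_mul_eq_one hNN with h0 | h0
      · exact h0
      · omega
    subst hN1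
    have h1 : ((T ^ 2 - 4 : ℤ) : ℚ) = 24 * x * q ^ 2 := by
      push_cast
      have : (1 : ℚ) = p ^ 2 - 6 * x * q ^ 2 := by exact_mod_cast hN
      rw [hT]; linear_combination -4 * this
    have hlt : T ^ 2 - 4 < 0 := by
      have : ((T ^ 2 - 4 : ℤ) : ℚ) < 0 := by rw [h1]; nlinarith
      exact_mod_cast this
    have hd : (q.den : ℚ) ≠ 0 := by exact_mod_cast q.den_nz
    have h2 : ((T ^ 2 - 4 : ℤ) : ℚ) * (q.den : ℚ) ^ 2 = 24 * x * (q.num : ℚ) ^ 2 := by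
      rw [h1]
      nth_rewrite 1 [← Rat.num_div_den q]
      field_simp
    have h2' : (T ^ 2 - 4) * (q.den : ℤ) ^ 2 = 24 * x * q.num ^ 2 := by exact_mod_cast h2
    have h3 : (3 : ℤ) ∣ T ^ 2 - 4 :=
      par3 (a := q.num) (b := q.den) (x := x) hx3 (rat_cop q) h2'
    have hT2 : T ≤ 1 := by nlinarith
    have hT3 : -1 ≤ T := by nlinarith
    interval_cases T
    · exact par2' (a := q.num) (b := q.den) hx (rat_cop q) (by linarith)
    · omega
    · exact par2' (a := q.num) (b := q.den) hx (rat_cop q) (by linarith)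

/-- the ideal step: if `3` does not divide the class number, `θ = γ ^ 3 * η` -/
lemma step {y z : ℤ} (h : x ^ 3 * y ^ 2 = z ^ 3 + 6)
    (hs : s ^ 2 = 6 * x) (hcl : ¬ 3 ∣ NumberField.classNumber K) :
    ∃ (u : (𝓞 K)ˣ) (g : 𝓞 K),
      ((g ^ 3 * (u : 𝓞 K) : 𝓞 K) : K) = z ^ 3 + 12 + 2 * x * y * s := by
  obtain ⟨hz2, hz3, hx2, hx3, hy3⟩ := facts h
  have hsi : IsIntegral ℤ s := by
    refine IsIntegral.of_pow (n := 2) (by norm_num) ?_
    rw [hs]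
    have h1 : IsIntegral ℤ ((6 * x : ℤ) : K) := isIntegral_algebraMap (R := ℤ) (x := 6 * x)
    simpa using h1
  set S : 𝓞 K := ⟨s, hsi⟩ with hS
  have hSS : S ^ 2 = 6 * (x : 𝓞 K) := by
    apply RingOfIntegers.ext
    change algebraMap (𝓞 K) K (S ^ 2) = algebraMap (𝓞 K) K (6 * (x : 𝓞 K))
    rw [map_pow, map_mul, map_intCast, map_ofNat]
    exact hs
  have hO : (x : 𝓞 K) ^ 3 * (y : 𝓞 K) ^ 2 = (z : 𝓞 K) ^ 3 + 6 := by
    exact_mod_cast congrArg (Int.cast : ℤ → 𝓞 K) h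
  set θ : 𝓞 K := (z : 𝓞 K) ^ 3 + 12 + 2 * x * y * S with hθ
  set θ' : 𝓞 K := (z : 𝓞 K) ^ 3 + 12 - 2 * x * y * S with hθ'
  have hmul : θ * θ' = ((z : 𝓞 K) ^ 2) ^ 3 := by
    rw [hθ, hθ']
    linear_combination (-4 * (x : 𝓞 K) ^ 2 * (y : 𝓞 K) ^ 2) * hSS - 24 * hO
  have hcop : IsCoprime θ θ' := by
    have c24 : IsCoprime (24 : ℤ) z := by
      have a2 : IsCoprime (2 : ℤ) z := (Int.prime_two.coprime_iff_not_dvd).2 hz2
      have a3 : IsCoprime (3 : ℤ) z := (Int.prime_three.coprime_iff_not_dvd).2 hz3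
      have := (a2.pow_left (m := 3)).mul_left a3
      norm_num at this
      exact this
    have c1 : IsCoprime (24 + z * (2 * z ^ 2)) z := c24.add_mul_left_left _
    have c2 : IsCoprime (24 + z * (2 * z ^ 2)) (z ^ 6) := c1.pow_right
    obtain ⟨a, b, hab⟩ := c2
    have hab' : (a : 𝓞 K) * (24 + z * (2 * z ^ 2)) + b * z ^ 6 = 1 := by
      exact_mod_cast congrArg (Int.cast : ℤ → 𝓞 K) hab
    refine ⟨a + b * θ', a, ?_⟩
    have hsum : θ + θ' = 24 + z * (2 * z ^ 2) := by rw [hθ, hθ']; ring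
    linear_combination hab' + (a : 𝓞 K) * hsum + (b : 𝓞 K) * hmul
  have hI : Ideal.span {θ} * Ideal.span {θ'} = (Ideal.span {(z : 𝓞 K) ^ 2}) ^ 3 := by
    rw [Ideal.span_singleton_mul_span_singleton, Ideal.span_singleton_pow, hmul]
  obtain ⟨I, hI3⟩ := exists_eq_pow_of_mul_eq_pow_of_coprime
    ((Ideal.isCoprime_span_singleton_iff θ θ').2 hcop) hI
  have hc3 : Nat.Coprime 3 (Fintype.card (ClassGroup (𝓞 K))) :=
    (Nat.Prime.coprime_iff_not_dvd Nat.prime_three).2 hcl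
  have hpr : I.IsPrincipal := by
    refine Ideal.IsPrincipal.of_isPrincipal_pow_of_coprime hc3 ?_
    rw [← hI3]
    exact ⟨⟨θ, rfl⟩⟩
  obtain ⟨⟨g, hg⟩⟩ := hpr
  have hg' : I = Ideal.span {g} := hg
  rw [hg', Ideal.span_singleton_pow, Ideal.span_singleton_eq_span_singleton] at hI3
  obtain ⟨u, hu⟩ := hI3.symm
  refine ⟨u, g, ?_⟩
  rw [hu, hθ]
  change algebraMap (𝓞 K) K ((z : 𝓞 K) ^ 3 + 12 + 2 * x * y * S) = _
  simp only [map_add, map_mul, map_pow, map_intCast, map_ofNat]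
  rfl

theorem main (hK : Module.finrank ℚ K = 2) {y z : ℤ} (h : x ^ 3 * y ^ 2 = z ^ 3 + 6)
    (hs : s ^ 2 = 6 * x) (hcl : ¬ 3 ∣ NumberField.classNumber K) :
    ∃ u : (𝓞 K)ˣ, ∀ m : ℤ, ¬ (3 : 𝓞 K) ∣ (u : 𝓞 K) - m := by
  obtain ⟨hz2, hz3, hx2, hx3, hy3⟩ := facts h
  obtain ⟨u, g, hug⟩ := step h hs hcl
  refine ⟨u, ?_⟩
  rintro m ⟨k, hk⟩
  obtain ⟨j, k', hj⟩ := cube hK hx2 hx3 hs g
  have e1 : g ^ 3 * (u : 𝓞 K) = (j * m : ℤ) + 3 * (g ^ 3 * k + k' * m) := by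
    push_cast
    linear_combination (g ^ 3) * hk + (m : 𝓞 K) * hj
  rw [e1] at hug
  refine notint hK hx2 hx3 hs hy3 (j * m - z ^ 3 - 12) (g ^ 3 * k + k' * m) ?_
  change algebraMap (𝓞 K) K ((j * m : ℤ) + 3 * (g ^ 3 * k + k' * m)) = _ at hug
  change _ = _ + 3 * algebraMap (𝓞 K) K (g ^ 3 * k + k' * m)
  rw [map_add, map_mul (algebraMap (𝓞 K) K) 3, map_intCast, map_ofNat] at hug
  push_cast at hug ⊢
  linear_combination -hug

theorem main_neg (hK : Module.finrank ℚ K = 2) {y z : ℤ} (h : x ^ 3 * y ^ 2 = z ^ 3 + 6)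
    (hs : s ^ 2 = 6 * x) (hneg : x < 0) : 3 ∣ NumberField.classNumber K := by
  by_contra hcl
  obtain ⟨hz2, hz3, hx2, hx3, hy3⟩ := facts h
  obtain ⟨u, hu⟩ := main hK h hs hcl
  obtain ⟨m, hm⟩ := unit_int hK hx2 hx3 hs hneg u
  exact hu m (by rw [hm]; simp)

lemma cube_mod9 {m : ℤ} (hm : ¬ (3 : ℤ) ∣ m) : ∃ k : ℤ, m ^ 3 = 1 + 9 * k ∨ m ^ 3 = -1 + 9 * k := by
  have h1 : m % 3 = 1 ∨ m % 3 = 2 := by omega
  rcases h1 with h1 | h1
  · obtain ⟨w, hw⟩ : ∃ w, m = 3 * w + 1 := ⟨m / 3, by omega⟩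
    exact ⟨3 * w ^ 3 + 3 * w ^ 2 + w, Or.inl (by rw [hw]; ring)⟩
  · obtain ⟨w, hw⟩ : ∃ w, m = 3 * w - 1 := ⟨m / 3 + 1, by omega⟩
    exact ⟨3 * w ^ 3 - 3 * w ^ 2 + w, Or.inr (by rw [hw]; ring)⟩

/-- a cube prime to `3` is `±1` modulo `9` when `x ≡ 1 mod 3` -/
lemma cube9 (hK : Module.finrank ℚ K = 2) (hx : ¬ (2 : ℤ) ∣ x) (hx1 : x % 3 = 1)
    (hs : s ^ 2 = 6 * x) (g : 𝓞 K) :
    (∃ k : 𝓞 K, g ^ 3 = 3 * k) ∨ ∃ k : 𝓞 K, g ^ 3 = 1 + 9 * k ∨ g ^ 3 = -1 + 9 * k := by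
  have p3 : Prime (3 : ℤ) := Int.prime_three
  have hx3 : ¬ (3 : ℤ) ∣ x := by omega
  obtain ⟨p, q, hg⟩ := coord hK hx hs (g : K)
  by_cases hq : q = 0
  · subst hq
    obtain ⟨m, rfl⟩ := rat_int g (p := p) (by rw [hg]; simp)
    by_cases hm : (3 : ℤ) ∣ m
    · obtain ⟨c, rfl⟩ := hm
      exact Or.inl ⟨9 * c ^ 3, by push_cast; ring⟩
    · obtain ⟨k, hk⟩ := cube_mod9 hm
      refine Or.inr ⟨k, ?_⟩
      rcases hk with hk | hk
      · exact Or.inl (by exact_mod_cast congrArg (Int.cast : ℤ → 𝓞 K) hk)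
      · exact Or.inr (by exact_mod_cast congrArg (Int.cast : ℤ → 𝓞 K) hk)
  · obtain ⟨T, N, h, hT, hN⟩ := coords hK hx hs g hg hq
    have h1 : ((T ^ 2 - 4 * N : ℤ) : ℚ) = 24 * x * q ^ 2 := by
      push_cast; rw [hT, hN]; ring
    have hd : (q.den : ℚ) ≠ 0 := by exact_mod_cast q.den_nz
    have h2 : ((T ^ 2 - 4 * N : ℤ) : ℚ) * (q.den : ℚ) ^ 2 = 24 * x * (q.num : ℚ) ^ 2 := by
      rw [h1]
      nth_rewrite 1 [← Rat.num_div_den q]
      field_simp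
    have h2' : (T ^ 2 - 4 * N) * (q.den : ℤ) ^ 2 = 24 * x * q.num ^ 2 := by exact_mod_cast h2
    have hcop := rat_cop q
    obtain ⟨c, hc⟩ : (3 : ℤ) ∣ T ^ 2 - 4 * N :=
      par3 (a := q.num) (b := q.den) (x := x) hx3 hcop h2'
    generalize hA : q.num = A at *
    generalize hB : (q.den : ℤ) = B at *
    have h3 : c * B ^ 2 = 8 * x * A ^ 2 := by
      rw [hc] at h2'; linarith
    have hB3 : ¬ (3 : ℤ) ∣ B := by
      intro hb
      have h4 : (3 : ℤ) ∣ 8 * (x * A ^ 2) := by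
        obtain ⟨b, rfl⟩ := hb
        exact ⟨3 * c * b ^ 2, by linarith⟩
      have h5 := (p3.dvd_or_dvd h4).resolve_left (by decide)
      have h6 := p3.dvd_of_dvd_pow ((p3.dvd_or_dvd h5).resolve_left hx3)
      exact p3.not_isUnit (hcop.isUnit_of_dvd' h6 hb)
    have h4 : g ^ 2 = (T : 𝓞 K) * g - N := by
      apply RingOfIntegers.coe_injective
      push_cast
      exact h
    have hcO : ((T : 𝓞 K) ^ 2 - 4 * N) = 3 * c := by exact_mod_cast congrArg (Int.cast : ℤ → 𝓞 K) hc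
    by_cases hT3 : (3 : ℤ) ∣ T
    · left
      have hN3 : (3 : ℤ) ∣ N := by
        have : (3 : ℤ) ∣ 4 * N := by
          obtain ⟨t, rfl⟩ := hT3
          exact ⟨3 * t ^ 2 - c, by linarith⟩
        exact (p3.dvd_or_dvd this).resolve_left (by decide)
      obtain ⟨t, rfl⟩ := hT3
      obtain ⟨n, rfl⟩ := hN3
      refine ⟨g * (t * g - n), ?_⟩
      push_cast at h4
      linear_combination g * h4
    · right
      obtain ⟨e, he⟩ := cube_mod9 hT3
      -- it is enough to have `g ^ 3 = -T ^ 3 + 9 μ`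
      suffices hmu : ∃ μ : 𝓞 K, g ^ 3 = -(T : 𝓞 K) ^ 3 + 9 * μ by
        obtain ⟨μ, hμ⟩ := hmu
        rcases he with he | he
        · have he' : (T : 𝓞 K) ^ 3 = 1 + 9 * e := by
            exact_mod_cast congrArg (Int.cast : ℤ → 𝓞 K) he
          exact ⟨μ - e, Or.inr (by rw [hμ, he']; ring)⟩
        · have he' : (T : 𝓞 K) ^ 3 = -1 + 9 * e := by
            exact_mod_cast congrArg (Int.cast : ℤ → 𝓞 K) he
          exact ⟨μ - e, Or.inl (by rw [hμ, he']; ring)⟩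
      by_cases hA3 : (3 : ℤ) ∣ A
      · obtain ⟨a, rfl⟩ := hA3
        have h9 : (9 : ℤ) ∣ c := by
          have h5 : (9 : ℤ) ∣ c * B ^ 2 := ⟨8 * x * a ^ 2, by rw [h3]; ring⟩
          have h6 : IsCoprime (3 : ℤ) B := (p3.coprime_iff_not_dvd).2 hB3
          have h7 : IsCoprime (9 : ℤ) (B ^ 2) := by
            have := (h6.pow_left (m := 2)).pow_right (n := 2)
            norm_num at this
            exact this
          exact h7.dvd_of_dvd_mul_right h5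
        obtain ⟨c', rfl⟩ := h9
        have hI : IsIntegral ℤ ((2 * (g : K) - T) / 3) := by
          refine IsIntegral.of_pow (n := 2) (by norm_num) ?_
          have h8 : ((2 * (g : K) - T) / 3) ^ 2 = ((3 * c' : ℤ) : K) := by
            have h9 : ((T : K) ^ 2 - 4 * N) = 27 * c' := by
              have := congrArg (Int.cast : ℤ → K) hc
              push_cast at this
              linear_combination this
            push_cast
            linear_combination (4 / 9 : K) * h + (1 / 9 : K) * h9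
          rw [h8]
          exact isIntegral_algebraMap (R := ℤ) (x := 3 * c')
        set D : 𝓞 K := ⟨(2 * (g : K) - T) / 3, hI⟩ with hD
        have hD3 : 3 * D = 2 * g - T := by
          apply RingOfIntegers.ext
          change algebraMap (𝓞 K) K (3 * D) = algebraMap (𝓞 K) K (2 * g - T)
          rw [map_sub, map_mul, map_mul, map_intCast, map_ofNat, map_ofNat]
          change 3 * ((2 * (g : K) - T) / 3) = 2 * (g : K) - T
          ring
        have hgm : g = -(T : 𝓞 K) + 3 * (g - D) := by linear_combination hD3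
        generalize g - D = μ at hgm
        refine ⟨(T : 𝓞 K) ^ 2 * μ - 3 * T * μ ^ 2 + 3 * μ ^ 3, ?_⟩
        rw [hgm]; ring
      · have hk : (3 : ℤ) ∣ N + c := by
          have e1 : T ^ 2 % 3 = 1 := by
            have : T % 3 = 1 ∨ T % 3 = 2 := by omega
            rcases this with h | h <;> simp [pow_two, Int.mul_emod, h]
          have e2 : A ^ 2 % 3 = 1 := by
            have : A % 3 = 1 ∨ A % 3 = 2 := by omega
            rcases this with h | h <;> simp [pow_two, Int.mul_emod, h]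
          have e3 : B ^ 2 % 3 = 1 := by
            have : B % 3 = 1 ∨ B % 3 = 2 := by omega
            rcases this with h | h <;> simp [pow_two, Int.mul_emod, h]
          have e4 : (c * B ^ 2) % 3 = c % 3 := by
            rw [Int.mul_emod, e3]; simp
          have e5 : (8 * x * A ^ 2) % 3 = 2 := by
            rw [Int.mul_emod, e2, Int.mul_emod 8 x 3, hx1]; norm_num
          rw [h3, e5] at e4
          omega
        obtain ⟨k, hk⟩ := hk
        have hkO : (N : 𝓞 K) + c = 3 * k := by exact_mod_cast congrArg (Int.cast : ℤ → 𝓞 K) hk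
        refine ⟨k * g + k * T, ?_⟩
        linear_combination (g + T) * h4 + (g + T) * hcO + 3 * (g + T) * hkO

lemma z9d : ∀ a b w : ZMod 9, (3 * a + 1) ^ 3 * b ^ 2 = w ^ 3 + 6 → w ^ 3 = 1 ∧ (b = 5 ∨ -b = 5) := by
  decide

theorem main9 (hK : Module.finrank ℚ K = 2) {y z : ℤ} (h : x ^ 3 * y ^ 2 = z ^ 3 + 6)
    (hs : s ^ 2 = 6 * x) (hcl : ¬ 3 ∣ NumberField.classNumber K) (hx1 : x % 3 = 1) :
    ∃ (u : (𝓞 K)ˣ) (k : 𝓞 K), ((u : 𝓞 K) : K) = 4 + x * s + 9 * (k : K) := by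
  -- choose the sign of `y`
  obtain ⟨y', hy', h5⟩ : ∃ y' : ℤ, x ^ 3 * y' ^ 2 = z ^ 3 + 6 ∧ (y' : ZMod 9) = 5 := by
    obtain ⟨a, ha⟩ : ∃ a, x = 3 * a + 1 := ⟨x / 3, by omega⟩
    have h1 := congrArg (Int.cast : ℤ → ZMod 9) h
    rw [ha] at h1
    push_cast at h1
    rcases (z9d _ _ _ h1).2 with h2 | h2
    · exact ⟨y, h, h2⟩
    · exact ⟨-y, by rw [neg_pow_two]; exact h, by push_cast; exact h2⟩
  have hz1 : (z : ZMod 9) ^ 3 = 1 := by
    obtain ⟨a, ha⟩ : ∃ a, x = 3 * a + 1 := ⟨x / 3, by omega⟩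
    have h1 := congrArg (Int.cast : ℤ → ZMod 9) h
    rw [ha] at h1
    push_cast at h1
    exact (z9d _ _ _ h1).1
  obtain ⟨k1, hk1⟩ : (9 : ℤ) ∣ z ^ 3 - 1 := by
    have := (ZMod.intCast_zmod_eq_zero_iff_dvd (z ^ 3 - 1) 9).1
      (by push_cast; rw [hz1]; ring)
    exact_mod_cast this
  obtain ⟨k2, hk2⟩ : (9 : ℤ) ∣ 2 * y' - 1 := by
    have := (ZMod.intCast_zmod_eq_zero_iff_dvd (2 * y' - 1) 9).1
      (by push_cast; rw [h5]; decide)
    exact_mod_cast this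
  obtain ⟨hz2, hz3, hx2, hx3, hy3⟩ := facts hy'
  obtain ⟨u, g, hug⟩ := step hy' hs hcl
  have hsi : IsIntegral ℤ s := by
    refine IsIntegral.of_pow (n := 2) (by norm_num) ?_
    rw [hs]
    have h1 : IsIntegral ℤ ((6 * x : ℤ) : K) := isIntegral_algebraMap (R := ℤ) (x := 6 * x)
    simpa using h1
  set S : 𝓞 K := ⟨s, hsi⟩ with hS
  have hSs : algebraMap (𝓞 K) K S = s := rfl
  have hk1K : (z : K) ^ 3 - 1 = 9 * k1 := by exact_mod_cast congrArg (Int.cast : ℤ → K) hk1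
  have hk2K : 2 * (y' : K) - 1 = 9 * k2 := by exact_mod_cast congrArg (Int.cast : ℤ → K) hk2
  rcases cube9 hK hx2 hx1 hs g with ⟨k, hk⟩ | ⟨k, hk⟩
  · exfalso
    rw [hk] at hug
    refine notint hK hx2 hx3 hs hy3 (-(z ^ 3) - 12) (k * u) ?_
    change algebraMap (𝓞 K) K (3 * k * (u : 𝓞 K)) = _ at hug
    change _ = _ + 3 * algebraMap (𝓞 K) K (k * u)
    rw [map_mul, map_mul, map_ofNat] at hug
    rw [map_mul]
    push_cast
    linear_combination -hug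
  · rcases hk with hk | hk
    · refine ⟨u, k1 + 1 + k2 * x * S - k * u, ?_⟩
      rw [hk] at hug
      change algebraMap (𝓞 K) K ((1 + 9 * k) * (u : 𝓞 K)) = _ at hug
      change algebraMap (𝓞 K) K (u : 𝓞 K) = _ + 9 * algebraMap (𝓞 K) K (k1 + 1 + k2 * x * S - k * u)
      simp only [map_mul, map_add, map_sub, map_one, map_ofNat, map_intCast, hSs] at hug ⊢
      linear_combination hug + hk1K + (x : K) * s * hk2K
    · refine ⟨-u, k1 + 1 + k2 * x * S - k * u, ?_⟩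
      rw [hk] at hug
      change algebraMap (𝓞 K) K ((-1 + 9 * k) * (u : 𝓞 K)) = _ at hug
      change algebraMap (𝓞 K) K (((-u : (𝓞 K)ˣ)) : 𝓞 K) = _ + 9 * algebraMap (𝓞 K) K (k1 + 1 + k2 * x * S - k * u)
      simp only [map_mul, map_add, map_sub, map_neg, map_one, map_ofNat, map_intCast, hSs,
        Units.val_neg] at hug ⊢
      linear_combination hug + hk1K + (x : K) * s * hk2K

end fld

end Pool.Agent.Helper34.BAC
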